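import Pool.Agent.H28.N6.Targets

/-!
# N6 block D, row WIT: an isotropic quaternary form without isotropic plane
-/

set_option autoImplicit false

namespace Pool.Agent.H86.N6D
open MeasureTheory Pool.Agent.H28.N6

section

variable {F : Type} [Field F]

theorem b_symm {G : Matrix (Fin 4) (Fin 4) F} (hG : G.transpose = G) (x y : Fin 4 → F) :
    dotProduct x (G.mulVec y) = dotProduct y (G.mulVec x) := by
  rw [Matrix.dotProduct_mulVec, ← Matrix.mulVec_transpose, hG, dotProduct_comm]

/-- a hyperbolic pair -/
theorem hyp_pair (h2 : (2 : F) ≠ 0) {G : Matrix (Fin 4) (Fin 4) F} (hG : G.transpose = G)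
    (hdet : G.det ≠ 0) (hA : ¬ Ani G) :
    ∃ u v : Fin 4 → F, dotProduct u (G.mulVec u) = 0 ∧ dotProduct v (G.mulVec v) = 0 ∧
      dotProduct u (G.mulVec v) = 1 / 2 := by
  unfold Ani at hA
  push Not at hA
  obtain ⟨u, hu, hu0⟩ := hA
  have hGu : G.mulVec u ≠ 0 := by
    intro h
    exact hdet (Matrix.exists_mulVec_eq_zero_iff.1 ⟨u, hu, h⟩)
  obtain ⟨i, hi⟩ : ∃ i, G.mulVec u i ≠ 0 := by
    by_contra hcon
    push Not at hcon
    exact hGu (funext hcon)
  set β : F := G.mulVec u i with hβ
  set v1 : Fin 4 → F := Pi.single i (1 / (2 * β)) with hv1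
  have h1 : dotProduct v1 (G.mulVec u) = 1 / 2 := by
    rw [hv1, single_dotProduct, ← hβ]
    field_simp
  have h1' : dotProduct u (G.mulVec v1) = 1 / 2 := by rw [b_symm hG, h1]
  set γ : F := dotProduct v1 (G.mulVec v1) with hγ
  have hu0' : dotProduct u (G.mulVec u) = 0 := hu0
  refine ⟨u, v1 - γ • u, hu0', ?_, ?_⟩
  · rw [Matrix.mulVec_sub, Matrix.mulVec_smul, sub_dotProduct, dotProduct_sub, dotProduct_sub,
      smul_dotProduct, dotProduct_smul, smul_dotProduct, dotProduct_smul, hu0', h1, h1', ← hγ]
    simp only [smul_eq_mul]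
    field_simp
    ring
  · rw [Matrix.mulVec_sub, Matrix.mulVec_smul, dotProduct_sub, dotProduct_smul, hu0', h1']
    simp

end

theorem pf_WIT : T_WIT := by
  intro F _ h2 G hG hdet hA hI
  obtain ⟨u, v, huu, hvv, huv⟩ := hyp_pair h2 hG hdet hA
  set B : LinearMap.BilinForm F (Fin 4 → F) := Matrix.toBilin' G with hBdef
  have hB : ∀ x y, B x y = dotProduct x (G.mulVec y) := fun x y => Matrix.toBilin'_apply' G x y
  have hsym : ∀ x y, B x y = B y x := fun x y => by rw [hB, hB, b_symm hG]
  have hq : ∀ x, qf G x = B x x := fun x => by rw [hB]; rfl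
  have huu' : B u u = 0 := by rw [hB, huu]
  have hvv' : B v v = 0 := by rw [hB, hvv]
  have huv' : B u v = 1 / 2 := by rw [hB, huv]
  have hvu' : B v u = 1 / 2 := by rw [hsym, huv']
  have hhalf : (1 / 2 : F) ≠ 0 := one_div_ne_zero h2
  -- the orthogonal complement
  set φ : (Fin 4 → F) →ₗ[F] F × F := (B u).prod (B v) with hφ
  have hφs : LinearMap.range φ = ⊤ := by
    rw [LinearMap.range_eq_top]
    rintro ⟨a, b⟩
    refine ⟨(2 * a) • v + (2 * b) • u, ?_⟩
    refine Prod.ext ?_ ?_
    · change B u ((2 * a) • v + (2 * b) • u) = a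
      simp only [map_add, map_smul, huu', huv', smul_eq_mul]
      field_simp
      ring
    · change B v ((2 * a) • v + (2 * b) • u) = b
      simp only [map_add, map_smul, hvv', hvu', smul_eq_mul]
      field_simp
      ring
  have hker : Module.finrank F (LinearMap.ker φ) = 2 := by
    have h := LinearMap.finrank_range_add_finrank_ker φ
    rw [hφs, finrank_top, Module.finrank_prod, Module.finrank_self, Module.finrank_fin_fun] at h
    omega
  set bas := Module.finBasisOfFinrankEq F (LinearMap.ker φ) hker with hbas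
  set w : Fin 2 → Fin 4 → F := fun i => (bas i : Fin 4 → F) with hw
  have hwu : ∀ i, B u (w i) = 0 := by
    intro i
    have h : φ (bas i : Fin 4 → F) = 0 := LinearMap.mem_ker.1 (bas i).2
    exact congrArg Prod.fst h
  have hwv : ∀ i, B v (w i) = 0 := by
    intro i
    have h : φ (bas i : Fin 4 → F) = 0 := LinearMap.mem_ker.1 (bas i).2
    exact congrArg Prod.snd h
  have hli : ∀ a b : F, a • w 0 + b • w 1 = 0 → a = 0 ∧ b = 0 := by
    intro a b hab
    have h := Fintype.linearIndependent_iff.1 bas.linearIndependent ![a, b] (by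
      apply Subtype.ext
      rw [Fin.sum_univ_two]
      exact hab)
    exact ⟨h 0, h 1⟩
  have hwu' : ∀ i, B (w i) u = 0 := fun i => by rw [hsym, hwu]
  have hwv' : ∀ i, B (w i) v = 0 := fun i => by rw [hsym, hwv]
  set M : Matrix (Fin 4) (Fin 4) F := Matrix.of fun i j => ![u, v, w 0, w 1] j i with hM
  have hMz : ∀ z : Fin 4 → F, M.mulVec z = z 0 • u + z 1 • v + (z 2 • w 0 + z 3 • w 1) := by
    intro z
    funext i
    rw [Matrix.mulVec, dotProduct, Fin.sum_univ_four]
    simp only [hM, Matrix.of_apply, Pi.add_apply, Pi.smul_apply, smul_eq_mul]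
    change u i * z 0 + v i * z 1 + w 0 i * z 2 + w 1 i * z 3 = _
    ring
  refine ⟨M, Matrix.of ![![B (w 0) (w 0), B (w 0) (w 1)], ![B (w 0) (w 1), B (w 1) (w 1)]],
    ?_, ?_, ?_, ?_⟩
  · intro h0
    obtain ⟨z, hz, hMz0⟩ := Matrix.exists_mulVec_eq_zero_iff.2 h0
    rw [hMz] at hMz0
    have e1 : z 1 = 0 := by
      have h := congrArg (fun x => B u x) hMz0
      simp only [map_add, map_smul, huu', huv', hwu, smul_eq_mul, mul_zero, map_zero, add_zero,
        zero_add] at h
      exact (mul_eq_zero.1 h).resolve_right hhalf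
    have e0 : z 0 = 0 := by
      have h := congrArg (fun x => B v x) hMz0
      simp only [map_add, map_smul, hvv', hvu', hwv, smul_eq_mul, mul_zero, map_zero, add_zero] at h
      exact (mul_eq_zero.1 h).resolve_right hhalf
    rw [e0, e1, zero_smul, zero_smul, zero_add, zero_add] at hMz0
    obtain ⟨e2, e3⟩ := hli _ _ hMz0
    apply hz
    funext i
    fin_cases i
    · exact e0
    · exact e1
    · exact e2
    · exact e3
  · intro z hz hqz
    set x : Fin 4 → F := z 0 • w 0 + z 1 • w 1 with hx
    have hx0 : x ≠ 0 := by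
      intro h
      obtain ⟨e0, e1⟩ := hli _ _ h
      apply hz
      funext i
      fin_cases i
      · exact e0
      · exact e1
    have hxx : B x x = 0 := by
      rw [← hqz]
      simp only [qf, Matrix.mulVec, dotProduct, Fin.sum_univ_two, Matrix.of_apply, hx, map_add,
        map_smul, LinearMap.add_apply, LinearMap.smul_apply, smul_eq_mul,
        Matrix.cons_val_zero, Matrix.cons_val_one, hsym (w 1) (w 0)]
      ring
    have hux : B u x = 0 := by
      simp only [hx, map_add, map_smul, hwu, smul_eq_mul, mul_zero, add_zero]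
    have hxu : B x u = 0 := by rw [hsym, hux]
    have hvx : B v x = 0 := by
      simp only [hx, map_add, map_smul, hwv, smul_eq_mul, mul_zero, add_zero]
    apply hI
    have hlin : LinearIndependent F ![u, x] := by
      rw [LinearIndependent.pair_iff]
      intro s t hst
      have h := congrArg (fun y => B v y) hst
      simp only [map_add, map_smul, hvu', hvx, smul_eq_mul, mul_zero, map_zero, add_zero] at h
      have hs : s = 0 := (mul_eq_zero.1 h).resolve_right hhalf
      rw [hs, zero_smul, zero_add] at hst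
      exact ⟨hs, (smul_eq_zero.1 hst).resolve_right hx0⟩
    refine ⟨Submodule.span F (Set.range ![u, x]), ?_, ?_⟩
    · rw [finrank_span_eq_card hlin, Fintype.card_fin]
    · intro y hy
      rw [Matrix.range_cons, Matrix.range_cons, Matrix.range_empty, Set.union_empty,
        Set.singleton_union, Submodule.mem_span_pair] at hy
      obtain ⟨s, t, rfl⟩ := hy
      rw [hq]
      simp only [map_add, map_smul, LinearMap.add_apply, LinearMap.smul_apply, huu', hux, hxu,
        hxx, smul_eq_mul, mul_zero, add_zero]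
  · ext i j
    fin_cases i <;> fin_cases j <;> rfl
  · intro z
    rw [hq, hMz]
    simp only [qf, Matrix.mulVec, dotProduct, Fin.sum_univ_two, Matrix.of_apply, map_add,
      map_smul, LinearMap.add_apply, LinearMap.smul_apply, smul_eq_mul,
      Matrix.cons_val_zero, Matrix.cons_val_one, hsym (w 1) (w 0), huu', huv', hvu', hvv',
      hwu, hwv, hwu', hwv']
    field_simp
    ring

end Pool.Agent.H86.N6D
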