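import Pool.Agent.H28.N6.Targets

/-!
# N6 block D, row DER: the derivative of the determinant of a pencil
-/

set_option autoImplicit false

namespace Pool.Agent.H86.N6D
open MeasureTheory Pool.Agent.H28.N6

theorem sub_det_zero {F : Type} [Field F] (n : ℕ) (A : Matrix (Fin (n + 1)) (Fin (n + 1)) F)
    (hA : ∀ i, A i 0 = 0) (j : Fin (n + 1)) (hj : j ≠ 0) :
    (A.submatrix Fin.succ j.succAbove).det = 0 := by
  obtain ⟨j', rfl⟩ := Fin.exists_succ_eq.2 hj
  cases n with
  | zero => exact j'.elim0
  | succ m =>
    apply Matrix.det_eq_zero_of_column_eq_zero 0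
    intro i
    rw [Matrix.submatrix_apply, Fin.succ_succAbove_zero]
    exact hA _

theorem pf_DER : T_DER := by
  intro F _ n A B hA0 hA1
  set M : Matrix (Fin (n + 1)) (Fin (n + 1)) (Polynomial F) :=
    A.map Polynomial.C + (Polynomial.X : Polynomial F) • B.map Polynomial.C with hMdef
  have hM : ∀ j, M 0 j = Polynomial.X * Polynomial.C (B 0 j) := by
    intro j
    rw [hMdef, Matrix.add_apply, Matrix.map_apply, Matrix.smul_apply, Matrix.map_apply, hA0]
    simp
  have hdet : dp A B = Polynomial.X * ∑ j : Fin (n + 1), (-1) ^ (j : ℕ) *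
      Polynomial.C (B 0 j) * (M.submatrix Fin.succ j.succAbove).det := by
    unfold dp
    rw [Matrix.det_succ_row_zero, Finset.mul_sum]
    refine Finset.sum_congr rfl fun j _ => ?_
    rw [← hMdef, hM]
    ring
  have hev : ∀ j : Fin (n + 1), ((M.submatrix Fin.succ j.succAbove).det).eval 0 =
      (A.submatrix Fin.succ j.succAbove).det := by
    intro j
    rw [← Polynomial.coe_evalRingHom, RingHom.map_det]
    congr 1
    ext a b
    simp [hMdef]
  have hsum : (∑ j : Fin (n + 1), (-1) ^ (j : ℕ) *
      Polynomial.C (B 0 j) * (M.submatrix Fin.succ j.succAbove).det).eval 0 =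
      B 0 0 * (A.submatrix Fin.succ Fin.succ).det := by
    rw [Polynomial.eval_finsetSum, Finset.sum_eq_single 0]
    · rw [Polynomial.eval_mul, hev]
      simp
    · intro j _ hj
      rw [Polynomial.eval_mul, hev, sub_det_zero n A hA1 j hj, mul_zero]
    · intro h
      exact absurd (Finset.mem_univ _) h
  constructor
  · rw [hdet, Polynomial.eval_mul, Polynomial.eval_X, zero_mul]
  · rw [hdet, Polynomial.derivative_mul, Polynomial.eval_add, Polynomial.eval_mul,
      Polynomial.eval_mul, Polynomial.derivative_X, Polynomial.eval_one, Polynomial.eval_X,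
      hsum]
    ring

end Pool.Agent.H86.N6D
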