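import Pool.Agent.H28.N6.Targets

/-!
# N6 block D, row HTB: the table for the hyperbolic plane
-/

set_option autoImplicit false

namespace Pool.Agent.H86.N6D
open MeasureTheory Pool.Agent.H28.N6

theorem cnt_full (x y : ℝ) (hx0 : 0 ≤ x) (hx1 : x ≤ 1) (k m : ℕ) (hk : k ≤ m + 1)
    (hy : y ≤ x ^ m) : ((Finset.range k).filter (fun i => y ≤ x ^ i)).card = k := by
  rw [Finset.filter_true_of_mem, Finset.card_range]
  intro i hi
  rw [Finset.mem_range] at hi
  exact hy.trans (pow_le_pow_of_le_one hx0 hx1 (by omega))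

theorem cnt_stop (x y : ℝ) (m : ℕ) (hy : x ^ m < y) :
    ((Finset.range (m + 1)).filter (fun i => y ≤ x ^ i)).card =
      ((Finset.range m).filter (fun i => y ≤ x ^ i)).card := by
  rw [Finset.range_add_one, Finset.filter_insert, if_neg (not_le.2 hy)]

theorem pf_HTB (hHVF : T_HVF) (hNRM : T_NRM) : T_HTB := by
  intro F _ _ _ _ _ D a m
  have hp0 : 0 < ‖D.p‖ := norm_pos_iff.2 D.p0
  have hp1 : ‖D.p‖ < 1 := D.p1
  have hq : (0 : ℝ) < D.q := by
    have := D.hq
    exact_mod_cast (by omega : 0 < D.q)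
  have hq' : (D.q : ℝ) ≠ 0 := hq.ne'
  have hanti : ∀ i j : ℕ, i < j → ‖D.p‖ ^ j < ‖D.p‖ ^ i := fun i j h =>
    pow_lt_pow_right_of_lt_one₀ hp0 hp1 h
  have hanti' : ∀ i j : ℕ, i ≤ j → ‖D.p‖ ^ j ≤ ‖D.p‖ ^ i := fun i j h =>
    pow_le_pow_of_le_one hp0.le hp1.le h
  refine ⟨fun h => ?_, fun h1 h2 => ?_, fun h => ?_⟩
  · have ha : ‖D.p‖ ^ (m + 1) < ‖a‖ := (hanti' m (m + 1) (by omega)).trans_lt h
    have hb : ‖D.p‖ ^ (m + 2) < ‖a‖ := (hanti' m (m + 2) (by omega)).trans_lt h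
    unfold TT
    rw [hHVF F D a m, hHVF F D a (m + 1), hHVF F D a (m + 2), if_neg (not_le.2 h),
      if_neg (not_le.2 ha), if_neg (not_le.2 hb), cnt_stop _ _ (m + 1) ha, cnt_stop _ _ m h]
    field_simp
    ring
  · have ha0 : a ≠ 0 := by
      rintro rfl
      rw [norm_zero] at h2
      exact absurd h2 (not_le.2 (by positivity))
    obtain ⟨k, hk⟩ := hNRM F D a ha0
    have hk1 : (m : ℤ) ≤ k := by
      by_contra hcon
      push Not at hcon
      have h3 : ‖D.p‖ ^ (m : ℤ) < ‖D.p‖ ^ k := zpow_lt_zpow_right_of_lt_one₀ hp0 hp1 hcon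
      rw [zpow_natCast, ← hk] at h3
      exact absurd h1 (not_le.2 h3)
    have hk2 : k ≤ ((m + 1 : ℕ) : ℤ) := by
      by_contra hcon
      push Not at hcon
      have h3 : ‖D.p‖ ^ k < ‖D.p‖ ^ ((m + 1 : ℕ) : ℤ) := zpow_lt_zpow_right_of_lt_one₀ hp0 hp1 hcon
      rw [zpow_natCast, ← hk] at h3
      exact absurd h2 (not_le.2 h3)
    have hcase : k = (m : ℤ) ∨ k = ((m + 1 : ℕ) : ℤ) := by
      push_cast at hk2 ⊢
      omega
    rcases hcase with rfl | rfl
    · rw [zpow_natCast] at hk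
      have ha : ‖D.p‖ ^ (m + 1) < ‖a‖ := by
        rw [hk]
        exact hanti m (m + 1) (by omega)
      have hb : ‖D.p‖ ^ (m + 2) < ‖a‖ := by
        rw [hk]
        exact hanti m (m + 2) (by omega)
      unfold TT
      rw [hHVF F D a m, hHVF F D a (m + 1), hHVF F D a (m + 2), if_pos h1,
        if_neg (not_le.2 ha), if_neg (not_le.2 hb), cnt_stop _ _ (m + 1) ha,
        cnt_full _ _ hp0.le hp1.le m m (by omega) h1,
        cnt_full _ _ hp0.le hp1.le (m + 1) m (by omega) h1]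
      push_cast
      field_simp
      ring
    · rw [zpow_natCast] at hk
      have hb : ‖D.p‖ ^ (m + 2) < ‖a‖ := by
        rw [hk]
        exact hanti (m + 1) (m + 2) (by omega)
      unfold TT
      rw [hHVF F D a m, hHVF F D a (m + 1), hHVF F D a (m + 2), if_pos h1,
        if_pos hk.le, if_neg (not_le.2 hb),
        cnt_full _ _ hp0.le hp1.le m m (by omega) h1,
        cnt_full _ _ hp0.le hp1.le (m + 1) m (by omega) h1,
        cnt_full _ _ hp0.le hp1.le (m + 2) (m + 1) (by omega) hk.le]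
      push_cast
      field_simp
      ring
  · have h1 : ‖a‖ ≤ ‖D.p‖ ^ (m + 1) := h.trans (hanti' (m + 1) (m + 2) (by omega))
    have h0 : ‖a‖ ≤ ‖D.p‖ ^ m := h.trans (hanti' m (m + 2) (by omega))
    unfold TT
    rw [hHVF F D a m, hHVF F D a (m + 1), hHVF F D a (m + 2), if_pos h0,
      if_pos h1, if_pos h,
      cnt_full _ _ hp0.le hp1.le m m (by omega) h0,
      cnt_full _ _ hp0.le hp1.le (m + 1) m (by omega) h0,
      cnt_full _ _ hp0.le hp1.le (m + 2) (m + 1) (by omega) h1]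
    push_cast
    field_simp
    ring

end Pool.Agent.H86.N6D
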